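import Mathlib

set_option autoImplicit false

namespace Pool.Agent.Results.MP_8db9c5_an.NontrivialIsometry

open scoped ENNReal

/-- The set of numbers whose supremum is the Jamesification norm of `a ∈ c₀₀` with respect to the
sequence `x` (indices start at `0` instead of `1`): all
`‖∑ i ≤ k, (a_{p i} + ⋯ + a_{q i}) x_{p i}‖` with `p 0 ≤ q 0 < p 1 ≤ q 1 < ⋯ < p k ≤ q k`. -/
def jamesValues {X : Type} [NormedAddCommGroup X] [NormedSpace ℝ X] (x : ℕ → X)
    (a : ℕ →₀ ℝ) : Set ℝ :=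
  {r | ∃ (k : ℕ) (p q : Fin (k + 1) → ℕ), (∀ i, p i ≤ q i) ∧ (∀ i j, i < j → q i < p j) ∧
    r = ‖∑ i, (∑ j ∈ Finset.Icc (p i) (q i), a j) • x (p i)‖}

/-- `J` together with the linear map `ι : c₀₀ → J` is the Jamesification `J(x_i)`, that is, the
completion of `c₀₀` under the Jamesification norm. -/
structure IsJamesification {X : Type} [NormedAddCommGroup X] [NormedSpace ℝ X] (x : ℕ → X)
    (J : Type) [NormedAddCommGroup J] [NormedSpace ℝ J] [CompleteSpace J]
    (ι : (ℕ →₀ ℝ) →ₗ[ℝ] J) : Prop where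
  dense : DenseRange ι
  norm_isLUB : ∀ a : ℕ →₀ ℝ, IsLUB (jamesValues x a) ‖ι a‖

/-! ### Reflexivity -/

def Refl (X : Type) [NormedAddCommGroup X] [NormedSpace ℝ X] : Prop :=
  Function.Surjective (NormedSpace.inclusionInDoubleDual ℝ X)

theorem refl_hilbert (H : Type) [NormedAddCommGroup H] [InnerProductSpace ℝ H]
    [CompleteSpace H] : Refl H := by
  intro Ψ
  let φ : H →L[ℝ] ℝ := LinearMap.mkContinuous
    { toFun := fun y => Ψ (innerSL ℝ y)
      map_add' := fun y z => by rw [map_add, map_add]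
      map_smul' := fun c y => by
        rw [map_smulₛₗ]
        simp } (‖Ψ‖) (fun y => by
          have h := Ψ.le_opNorm (innerSL ℝ y)
          rwa [innerSL_apply_norm] at h)
  refine ⟨(InnerProductSpace.toDual ℝ H).symm φ, ?_⟩
  ext g
  rw [NormedSpace.dual_def]
  obtain ⟨y, rfl⟩ := (InnerProductSpace.toDual ℝ H).surjective g
  rw [InnerProductSpace.toDual_apply_apply]
  have h1 : Ψ (InnerProductSpace.toDual ℝ H y) = φ y := rfl
  rw [h1, real_inner_comm, InnerProductSpace.toDual_symm_apply]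

theorem refl_prod (A B : Type) [NormedAddCommGroup A] [NormedSpace ℝ A]
    [NormedAddCommGroup B] [NormedSpace ℝ B] (hA : Refl A) (hB : Refl B) : Refl (A × B) := by
  intro Φ
  let ΦA : StrongDual ℝ (StrongDual ℝ A) :=
    Φ.comp ((ContinuousLinearMap.compL ℝ (A × B) A ℝ).flip (ContinuousLinearMap.fst ℝ A B))
  let ΦB : StrongDual ℝ (StrongDual ℝ B) :=
    Φ.comp ((ContinuousLinearMap.compL ℝ (A × B) B ℝ).flip (ContinuousLinearMap.snd ℝ A B))
  obtain ⟨a, ha⟩ := hA ΦA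
  obtain ⟨b, hb⟩ := hB ΦB
  refine ⟨(a, b), ?_⟩
  ext h
  rw [NormedSpace.dual_def]
  have e1 : h = (h.comp (ContinuousLinearMap.inl ℝ A B)).comp (ContinuousLinearMap.fst ℝ A B) +
      (h.comp (ContinuousLinearMap.inr ℝ A B)).comp (ContinuousLinearMap.snd ℝ A B) := by
    ext z
    · simp
      exact map_zero h
    · simp
      exact map_zero h
  have e2 : ΦA (h.comp (ContinuousLinearMap.inl ℝ A B)) = h (a, 0) := by
    rw [← ha, NormedSpace.dual_def]
    rfl
  have e3 : ΦB (h.comp (ContinuousLinearMap.inr ℝ A B)) = h (0, b) := by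
    rw [← hb, NormedSpace.dual_def]
    rfl
  have e4 : Φ h = h (a, 0) + h (0, b) := by
    conv_lhs => rw [e1]
    rw [map_add, ← e2, ← e3]
    rfl
  rw [e4, ← map_add]
  simp

/-! ### The space and its basis -/

/-- Real `ℓ₂`. -/
abbrev L2 : Type := lp (fun _ : ℕ => ℝ) 2

/-- The space `ℝ ⊕_∞ ℝ ⊕_∞ ℓ₂`. -/
abbrev XX : Type := ℝ × (ℝ × L2)

/-- The unit vectors of `ℝ ⊕_∞ ℝ ⊕_∞ ℓ₂`. -/
noncomputable def bas : ℕ → XX
  | 0 => (1, (0, 0))
  | 1 => (0, (1, 0))
  | (n + 2) => (0, (0, lp.single 2 n (1 : ℝ)))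

/-- The coordinate functionals. -/
noncomputable def coo : ℕ → StrongDual ℝ XX
  | 0 => ContinuousLinearMap.fst ℝ ℝ (ℝ × L2)
  | 1 => (ContinuousLinearMap.fst ℝ ℝ L2).comp (ContinuousLinearMap.snd ℝ ℝ (ℝ × L2))
  | (n + 2) => (lp.evalCLM ℝ (fun _ : ℕ => ℝ) 2 n).comp
      ((ContinuousLinearMap.snd ℝ ℝ L2).comp (ContinuousLinearMap.snd ℝ ℝ (ℝ × L2)))

theorem refl_XX : Refl XX :=
  refl_prod _ _ (refl_hilbert ℝ) (refl_prod _ _ (refl_hilbert ℝ) (refl_hilbert L2))

theorem coo_ortho (i j : ℕ) : coo i (bas j) = (Pi.single j (1 : ℝ) : ℕ → ℝ) i := by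
  match i, j with
  | 0, 0 => simp [coo, bas]
  | 0, 1 => simp [coo, bas]
  | 0, (n + 2) => simp [coo, bas]
  | 1, 0 => simp [coo, bas]
  | 1, 1 => simp [coo, bas]
  | 1, (n + 2) => simp [coo, bas]
  | (m + 2), 0 => simp [coo, bas]
  | (m + 2), 1 => simp [coo, bas]
  | (m + 2), (n + 2) =>
    have : coo (m + 2) (bas (n + 2)) = (lp.single 2 n (1 : ℝ) : L2) m := rfl
    rw [this, lp.single_apply]
    simp [Pi.single_apply]

theorem expansion (z : XX) : HasSum (fun i => coo i z • bas i) z := by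
  rw [← hasSum_nat_add_iff' 2]
  have h1 : z - ∑ i ∈ Finset.range 2, coo i z • bas i = (0, (0, z.2.2)) := by
    rw [Finset.sum_range_succ, Finset.sum_range_one]
    obtain ⟨z1, z2, z3⟩ := z
    simp [coo, bas]
  rw [h1]
  have h2 := lp.hasSum_single (E := fun _ : ℕ => ℝ) (p := 2) (by simp) z.2.2
  let L : L2 →L[ℝ] XX :=
    (ContinuousLinearMap.inr ℝ ℝ (ℝ × L2)).comp (ContinuousLinearMap.inr ℝ ℝ L2)
  have h3 := h2.mapL L
  have h4 : (fun n => coo (n + 2) z • bas (n + 2)) = fun n => L (lp.single 2 n (z.2.2 n)) := by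
    funext n
    have e1 : coo (n + 2) z = z.2.2 n := rfl
    have e2 : bas (n + 2) = L (lp.single 2 n (1 : ℝ)) := rfl
    rw [e1, e2, ← map_smul, ← lp.single_smul]
    simp
  rw [h4]
  exact h3

theorem single_any (inst : DecidableEq ℕ) (i j : ℕ) :
    (i = j → (Pi.single j (1 : ℝ) : ℕ → ℝ) i = 1) ∧
    (i ≠ j → (Pi.single j (1 : ℝ) : ℕ → ℝ) i = 0) :=
  ⟨by rintro rfl; exact Pi.single_eq_same _ _, fun h => Pi.single_eq_of_ne h _⟩

/-- The unit vectors form an unconditional Schauder basis. -/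
noncomputable def basB : UnconditionalSchauderBasis ℕ ℝ XX where
  basis := bas
  coord := coo
  ortho i j := by
    have h0 := coo_ortho i j
    by_cases h : i = j
    · rw [(single_any _ i j).1 h] at h0
      rw [h0]
      exact ((single_any _ i j).1 h).symm
    · rw [(single_any _ i j).2 h] at h0
      rw [h0]
      exact ((single_any _ i j).2 h).symm
  expansion := expansion

theorem norm_bas (n : ℕ) : ‖bas n‖ = 1 := by
  match n with
  | 0 => simp [bas, Prod.norm_def]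
  | 1 => simp [bas, Prod.norm_def]
  | (n + 2) =>
    have h := lp.norm_single (E := fun _ : ℕ => ℝ) (p := 2) (by simp) n (1 : ℝ)
    simp only [bas, Prod.norm_def, norm_zero]
    rw [h]
    simp

/-! ### The isometry on finitely supported sequences -/

/-- `T a = (a₀, -a₀ - a₁, -a₂, -a₃, …)`. -/
noncomputable def T0lin : (ℕ →₀ ℝ) →ₗ[ℝ] (ℕ →₀ ℝ) :=
  -LinearMap.id + (2 : ℝ) • ((Finsupp.lsingle 0).comp (Finsupp.lapply 0)) -
    (Finsupp.lsingle 1).comp (Finsupp.lapply 0)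

theorem T0lin_apply (a : ℕ →₀ ℝ) (n : ℕ) : T0lin a n =
    - a n + (if n = 0 then 2 * a 0 else 0) - (if n = 1 then a 0 else 0) := by
  simp only [T0lin, LinearMap.sub_apply, LinearMap.add_apply, LinearMap.neg_apply,
    LinearMap.smul_apply, LinearMap.comp_apply, LinearMap.id_apply, Finsupp.lapply_apply,
    Finsupp.lsingle_apply, Finsupp.sub_apply, Finsupp.add_apply, Finsupp.neg_apply,
    Finsupp.smul_apply, Finsupp.single_apply, smul_eq_mul]
  congr 1
  · congr 1
    by_cases h : n = 0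
    · simp [h]
    · simp [h, Ne.symm h]
  · by_cases h : n = 1
    · simp [h]
    · simp [h, Ne.symm h]

theorem T0lin_zero (a : ℕ →₀ ℝ) : T0lin a 0 = a 0 := by
  rw [T0lin_apply]; simp; ring

theorem T0lin_one (a : ℕ →₀ ℝ) : T0lin a 1 = - a 1 - a 0 := by
  rw [T0lin_apply]; simp

theorem T0lin_ge (a : ℕ →₀ ℝ) (n : ℕ) (hn : 2 ≤ n) : T0lin a n = - a n := by
  rw [T0lin_apply, if_neg (by omega), if_neg (by omega)]; ring

theorem T0lin_invol : Function.Involutive T0lin := by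
  intro a
  ext n
  match n with
  | 0 => rw [T0lin_zero, T0lin_zero]
  | 1 => rw [T0lin_one, T0lin_one, T0lin_zero]; ring
  | (n + 2) => rw [T0lin_ge _ _ (by omega), T0lin_ge _ _ (by omega)]; ring

noncomputable def T0 : (ℕ →₀ ℝ) ≃ₗ[ℝ] (ℕ →₀ ℝ) := LinearEquiv.ofInvolutive T0lin T0lin_invol

theorem T0_apply (a : ℕ →₀ ℝ) : T0 a = T0lin a := rfl

/-! ### Interval sums -/

/-- The sum of `a` over the interval `[m, n]`. -/
noncomputable def isum (a : ℕ →₀ ℝ) (m n : ℕ) : ℝ := ∑ j ∈ Finset.Icc m n, a j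

theorem isum_T_ge (a : ℕ →₀ ℝ) (m n : ℕ) (hm : 2 ≤ m) : isum (T0lin a) m n = - isum a m n := by
  unfold isum
  rw [← Finset.sum_neg_distrib]
  apply Finset.sum_congr rfl
  intro j hj
  rw [Finset.mem_Icc] at hj
  exact T0lin_ge a j (hm.trans hj.1)

theorem isum_succ_left (a : ℕ →₀ ℝ) (m n : ℕ) (h : m ≤ n) :
    isum a m n = a m + isum a (m + 1) n := by
  unfold isum
  have h' : Finset.Ioc m n = Finset.Icc (m + 1) n := by
    ext j
    rw [Finset.mem_Ioc, Finset.mem_Icc]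
    omega
  rw [Finset.Icc_eq_cons_Ioc h, Finset.sum_cons, h']

theorem isum_T_one (a : ℕ →₀ ℝ) (n : ℕ) (hn : 1 ≤ n) : isum (T0lin a) 1 n = - isum a 0 n := by
  rw [isum_succ_left _ 1 n hn, isum_T_ge a 2 n le_rfl, isum_succ_left a 0 n (Nat.zero_le n),
    isum_succ_left a 1 n hn, T0lin_one]
  ring

theorem isum_T_zero_zero (a : ℕ →₀ ℝ) : isum (T0lin a) 0 0 = isum a 0 0 := by
  unfold isum
  simp [T0lin_zero]

theorem isum_T_zero (a : ℕ →₀ ℝ) (n : ℕ) (hn : 1 ≤ n) :
    isum (T0lin a) 0 n = - isum a 1 n := by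
  rw [isum_succ_left _ 0 n (Nat.zero_le n), isum_T_one a n hn, T0lin_zero,
    isum_succ_left a 0 n (Nat.zero_le n)]
  ring

/-- Single intervals. -/
theorem single_interval (a : ℕ →₀ ℝ) (m n : ℕ) (h : m ≤ n) :
    |isum a m n| ∈ jamesValues bas a := by
  refine ⟨0, fun _ => m, fun _ => n, fun _ => h, ?_, ?_⟩
  · intro i j hij
    have h1 := i.2
    have h2 := j.2
    have h3 : i.val < j.val := hij
    omega
  · rw [Fin.sum_univ_one, norm_smul, norm_bas, mul_one]
    rfl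

/-- The vector of a system of intervals. -/
noncomputable def sysVec (a : ℕ →₀ ℝ) (k : ℕ) (p q : Fin (k + 1) → ℕ) : XX :=
  ∑ i, isum a (p i) (q i) • bas (p i)

theorem strictMono_p {k : ℕ} {p q : Fin (k + 1) → ℕ} (h1 : ∀ i, p i ≤ q i)
    (h2 : ∀ i j, i < j → q i < p j) : StrictMono p :=
  fun i j hij => (h1 i).trans_lt (h2 i j hij)

theorem comp_eq (a : ℕ →₀ ℝ) (k : ℕ) (p q : Fin (k + 1) → ℕ) (hp : StrictMono p) (m : ℕ)
    (φ : XX →L[ℝ] ℝ) (hφ : ∀ n, φ (bas n) = if n = m then 1 else 0) :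
    φ (sysVec a k p q) = 0 ∨ ∃ i, p i = m ∧ φ (sysVec a k p q) = isum a m (q i) := by
  have h1 : φ (sysVec a k p q) = ∑ i, isum a (p i) (q i) * (if p i = m then 1 else 0) := by
    unfold sysVec
    rw [map_sum]
    apply Finset.sum_congr rfl
    intro i _
    rw [map_smul, hφ, smul_eq_mul]
  by_cases hex : ∃ i, p i = m
  · right
    obtain ⟨i, hi⟩ := hex
    refine ⟨i, hi, ?_⟩
    rw [h1, Finset.sum_eq_single i]
    · rw [if_pos hi, mul_one, hi]
    · intro j _ hji
      rw [if_neg, mul_zero]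
      intro hj
      exact hji (hp.injective (hj.trans hi.symm))
    · intro hni
      exact absurd (Finset.mem_univ i) hni
  · left
    push Not at hex
    rw [h1]
    apply Finset.sum_eq_zero
    intro i _
    rw [if_neg (hex i), mul_zero]

/-- Projection to the `ℓ₂` part. -/
noncomputable def tailL : XX →L[ℝ] L2 :=
  (ContinuousLinearMap.snd ℝ ℝ L2).comp (ContinuousLinearMap.snd ℝ ℝ (ℝ × L2))

theorem tail_T (a : ℕ →₀ ℝ) (k : ℕ) (p q : Fin (k + 1) → ℕ) :
    tailL (sysVec (T0lin a) k p q) = - tailL (sysVec a k p q) := by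
  unfold sysVec
  rw [map_sum, map_sum, ← Finset.sum_neg_distrib]
  apply Finset.sum_congr rfl
  intro i _
  rw [map_smul, map_smul]
  rcases Nat.lt_or_ge (p i) 2 with h | h
  · have : tailL (bas (p i)) = 0 := by
      have h' : p i = 0 ∨ p i = 1 := by omega
      rcases h' with h' | h' <;> rw [h'] <;> rfl
    rw [this, smul_zero, smul_zero, neg_zero]
  · rw [isum_T_ge a _ _ h, neg_smul]

theorem norm_XX (z : XX) : ‖z‖ = max |coo 0 z| (max |coo 1 z| ‖tailL z‖) := rfl

theorem coo0_bas (n : ℕ) : coo 0 (bas n) = if n = 0 then 1 else 0 := by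
  rw [coo_ortho, Pi.single_apply]
  by_cases h : n = 0
  · simp [h]
  · simp [h, Ne.symm h]

theorem coo1_bas (n : ℕ) : coo 1 (bas n) = if n = 1 then 1 else 0 := by
  rw [coo_ortho, Pi.single_apply]
  by_cases h : n = 1
  · simp [h]
  · simp [h, Ne.symm h]

theorem T_le (a : ℕ →₀ ℝ) (r : ℝ) (hr : r ∈ upperBounds (jamesValues bas a)) :
    r ∈ upperBounds (jamesValues bas (T0lin a)) := by
  have hsing : ∀ m n, m ≤ n → |isum a m n| ≤ r := fun m n h => hr (single_interval a m n h)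
  have hr0 : 0 ≤ r := (abs_nonneg _).trans (hsing 0 0 le_rfl)
  rintro _ ⟨k, p, q, h1, h2, rfl⟩
  have hp := strictMono_p h1 h2
  show ‖sysVec (T0lin a) k p q‖ ≤ r
  have hval : ‖sysVec a k p q‖ ≤ r := hr ⟨k, p, q, h1, h2, rfl⟩
  rw [norm_XX] at hval ⊢
  have htail : ‖tailL (sysVec a k p q)‖ ≤ r :=
    ((le_max_right _ _).trans (le_max_right _ _)).trans hval
  apply max_le
  · rcases comp_eq (T0lin a) k p q hp 0 (coo 0) coo0_bas with h | ⟨i, hi, h⟩
    · rw [h, abs_zero]; exact hr0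
    · rw [h]
      rcases Nat.eq_zero_or_pos (q i) with h0 | h0
      · rw [h0, isum_T_zero_zero]; exact hsing 0 0 le_rfl
      · rw [isum_T_zero a _ h0, abs_neg]; exact hsing 1 _ h0
  · apply max_le
    · rcases comp_eq (T0lin a) k p q hp 1 (coo 1) coo1_bas with h | ⟨i, hi, h⟩
      · rw [h, abs_zero]; exact hr0
      · rw [h]
        have hq : 1 ≤ q i := by rw [← hi]; exact h1 i
        rw [isum_T_one a _ hq, abs_neg]
        exact hsing 0 _ (Nat.zero_le _)
    · rw [tail_T, norm_neg]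
      exact htail

theorem T_ub (a : ℕ →₀ ℝ) :
    upperBounds (jamesValues bas (T0lin a)) = upperBounds (jamesValues bas a) := by
  apply Set.Subset.antisymm
  · intro r hr
    have := T_le (T0lin a) r hr
    rwa [T0lin_invol a] at this
  · intro r hr
    exact T_le a r hr

/-! ### The completion -/

/-- Systems of intervals. -/
abbrev Sys : Type := Σ k : ℕ, {pq : (Fin (k + 1) → ℕ) × (Fin (k + 1) → ℕ) //
  (∀ i, pq.1 i ≤ pq.2 i) ∧ ∀ i j, i < j → pq.2 i < pq.1 j}

theorem sysVec_bound (a : ℕ →₀ ℝ) (k : ℕ) (p q : Fin (k + 1) → ℕ)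
    (h2 : ∀ i j, i < j → q i < p j) : ‖sysVec a k p q‖ ≤ ∑ j ∈ a.support, |a j| := by
  classical
  unfold sysVec
  refine (norm_sum_le _ _).trans ?_
  have e1 : ∀ i, ‖isum a (p i) (q i) • bas (p i)‖ ≤ ∑ j ∈ Finset.Icc (p i) (q i), |a j| := by
    intro i
    rw [norm_smul, norm_bas, mul_one]
    exact Finset.abs_sum_le_sum_abs _ _
  refine (Finset.sum_le_sum (fun i _ => e1 i)).trans ?_
  rw [← Finset.sum_biUnion]
  · have : ∑ j ∈ (Finset.univ.biUnion fun i => Finset.Icc (p i) (q i)), |a j| ≤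
        ∑ j ∈ (Finset.univ.biUnion fun i => Finset.Icc (p i) (q i)) ∪ a.support, |a j| :=
      Finset.sum_le_sum_of_subset_of_nonneg Finset.subset_union_left (fun _ _ _ => abs_nonneg _)
    refine this.trans (le_of_eq ?_)
    symm
    apply Finset.sum_subset Finset.subset_union_right
    intro j _ hj
    rw [Finsupp.notMem_support_iff.mp hj, abs_zero]
  · intro i _ j _ hij
    rw [Function.onFun, Finset.disjoint_left]
    intro t ht ht'
    rw [Finset.mem_Icc] at ht ht'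
    rcases lt_or_gt_of_ne hij with h | h
    · have := h2 i j h; omega
    · have := h2 j i h; omega

/-- The embedding of `c₀₀` into a large space of bounded families. -/
noncomputable def emb : (ℕ →₀ ℝ) →ₗ[ℝ] lp (fun _ : Sys => XX) ⊤ where
  toFun a := ⟨fun s => sysVec a s.1 s.2.1.1 s.2.1.2, memℓp_infty
    ⟨∑ j ∈ a.support, |a j|, by
      rintro _ ⟨s, rfl⟩
      exact sysVec_bound a _ _ _ s.2.2.2⟩⟩
  map_add' a b := by
    apply lp.ext
    funext s
    rw [lp.coeFn_add, Pi.add_apply]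
    simp only [sysVec, isum, Finsupp.add_apply, Finset.sum_add_distrib, add_smul]
  map_smul' c a := by
    apply lp.ext
    funext s
    rw [RingHom.id_apply, lp.coeFn_smul, Pi.smul_apply]
    simp only [sysVec, isum, Finsupp.smul_apply, smul_eq_mul, ← Finset.mul_sum, Finset.smul_sum,
      mul_smul]

theorem emb_apply (a : ℕ →₀ ℝ) (s : Sys) : emb a s = sysVec a s.1 s.2.1.1 s.2.1.2 := rfl

/-- The Jamesification as a Banach space. -/
abbrev JJ : Type := (LinearMap.range emb).topologicalClosure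

noncomputable def iota : (ℕ →₀ ℝ) →ₗ[ℝ] JJ :=
  LinearMap.codRestrict _ emb (fun a => Submodule.le_topologicalClosure _ ⟨a, rfl⟩)

instance : Nonempty Sys := ⟨⟨0, ⟨(fun _ => 0, fun _ => 0), fun _ => le_rfl, fun i j hij => by
  have h1 := i.2
  have h2 := j.2
  have h3 : i.val < j.val := hij
  omega⟩⟩⟩

instance : CompleteSpace JJ :=
  (Submodule.isClosed_topologicalClosure (LinearMap.range emb)).completeSpace_coe

theorem isJ : IsJamesification bas JJ iota where
  dense := by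
    intro z
    rw [Metric.mem_closure_iff]
    intro ε hε
    have hz : (z : lp (fun _ : Sys => XX) ⊤) ∈ closure (LinearMap.range emb :
        Set (lp (fun _ : Sys => XX) ⊤)) := z.2
    rw [Metric.mem_closure_iff] at hz
    obtain ⟨w, ⟨a, rfl⟩, hw⟩ := hz ε hε
    exact ⟨iota a, ⟨a, rfl⟩, hw⟩
  norm_isLUB a := by
    have h1 : ‖iota a‖ = ‖emb a‖ := rfl
    rw [h1]
    have h2 : jamesValues bas a = Set.range (fun s : Sys => ‖emb a s‖) := by
      ext r
      constructor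
      · rintro ⟨k, p, q, e1, e2, rfl⟩
        exact ⟨⟨k, ⟨(p, q), e1, e2⟩⟩, rfl⟩
      · rintro ⟨⟨k, ⟨⟨p, q⟩, e1, e2⟩⟩, rfl⟩
        exact ⟨k, p, q, e1, e2, rfl⟩
    rw [h2]
    exact lp.isLUB_norm _

theorem norm_T0 (a : ℕ →₀ ℝ) : ‖iota (T0 a)‖ = ‖iota a‖ := by
  have h1 := isJ.norm_isLUB (T0 a)
  have h2 := isJ.norm_isLUB a
  rw [T0_apply] at h1 ⊢
  unfold IsLUB at h1 h2
  rw [T_ub] at h1
  exact h1.unique h2

/-- The isometry of the Jamesification. -/
noncomputable def TT : JJ ≃ₗᵢ[ℝ] JJ :=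
  T0.extendOfIsometry iota iota isJ.dense isJ.dense norm_T0

theorem TT_apply (a : ℕ →₀ ℝ) : TT (iota a) = iota (T0 a) :=
  LinearMap.extendOfNorm_eq isJ.dense ⟨1, fun x => by rw [one_mul]; exact (norm_T0 x).le⟩ a

theorem iota_ne {a : ℕ →₀ ℝ} (m n : ℕ) (h : m ≤ n) (hne : isum a m n ≠ 0) : iota a ≠ 0 := by
  intro h0
  have h1 := (isJ.norm_isLUB a).1 (single_interval a m n h)
  rw [h0, norm_zero] at h1
  exact hne (abs_nonpos_iff.mp h1)

theorem TT_ne_refl : TT ≠ LinearIsometryEquiv.refl ℝ JJ := by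
  intro h
  have h1 : TT (iota (Finsupp.single 2 1)) = iota (Finsupp.single 2 1) := by rw [h]; rfl
  rw [TT_apply, ← sub_eq_zero, ← map_sub] at h1
  refine iota_ne 2 2 le_rfl ?_ h1
  unfold isum
  rw [Finset.Icc_self, Finset.sum_singleton, Finsupp.sub_apply, T0_apply,
    T0lin_ge _ 2 le_rfl, Finsupp.single_eq_same]
  norm_num

theorem TT_ne_neg : TT ≠ LinearIsometryEquiv.neg ℝ := by
  intro h
  have h1 : TT (iota (Finsupp.single 0 1)) = - iota (Finsupp.single 0 1) := by rw [h]; rfl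
  rw [TT_apply, ← add_eq_zero_iff_eq_neg, ← map_add] at h1
  refine iota_ne 0 0 le_rfl ?_ h1
  unfold isum
  rw [Finset.Icc_self, Finset.sum_singleton, Finsupp.add_apply, T0_apply,
    T0lin_zero, Finsupp.single_eq_same]
  norm_num

theorem coo_sum (s : Finset ℕ) (c : ℕ → ℝ) (m : ℕ) :
    coo m (∑ i ∈ s, c i • bas i) = if m ∈ s then c m else 0 := by
  rw [map_sum, Finset.sum_congr rfl (g := fun i => if m = i then c i else 0)]
  · rw [Finset.sum_ite_eq]
  · intro i _
    rw [map_smul, coo_ortho, Pi.single_apply, smul_eq_mul]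
    split_ifs <;> simp

/-- The basis is `1`-unconditional. -/
theorem one_uncond (s : Finset ℕ) (a θ : ℕ → ℝ) (hθ : ∀ i, |θ i| = 1) :
    ‖∑ i ∈ s, (θ i * a i) • bas i‖ = ‖∑ i ∈ s, a i • bas i‖ := by
  have key : ∀ m, |coo m (∑ i ∈ s, (θ i * a i) • bas i)| = |coo m (∑ i ∈ s, a i • bas i)| := by
    intro m
    rw [coo_sum s (fun i => θ i * a i) m, coo_sum s a m]
    split_ifs
    · rw [abs_mul, hθ, one_mul]
    · rfl
  have htail : ‖tailL (∑ i ∈ s, (θ i * a i) • bas i)‖ = ‖tailL (∑ i ∈ s, a i • bas i)‖ := by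
    rw [lp.norm_eq_tsum_rpow (by norm_num) , lp.norm_eq_tsum_rpow (by norm_num)]
    congr 1
    apply tsum_congr
    intro n
    congr 1
    exact key (n + 2)
  rw [norm_XX, norm_XX, key 0, key 1, htail]

/-- There are a reflexive real Banach space `X` with a normalised `1`-unconditional Schauder basis
`b`, and a surjective linear isometry of the Jamesification `J(b)` other than `± Id`. -/
theorem result : ∃ (X : Type) (_ : NormedAddCommGroup X) (_ : NormedSpace ℝ X)
    (_ : CompleteSpace X) (b : UnconditionalSchauderBasis ℕ ℝ X),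
    Function.Surjective (NormedSpace.inclusionInDoubleDual ℝ X) ∧
    (∀ i, ‖b i‖ = 1) ∧
    (∀ (s : Finset ℕ) (a θ : ℕ → ℝ), (∀ i, |θ i| = 1) →
      ‖∑ i ∈ s, (θ i * a i) • b i‖ = ‖∑ i ∈ s, a i • b i‖) ∧
    ∃ (J : Type) (_ : NormedAddCommGroup J) (_ : NormedSpace ℝ J) (_ : CompleteSpace J)
      (ι : (ℕ →₀ ℝ) →ₗ[ℝ] J), IsJamesification b J ι ∧
      ∃ T : J ≃ₗᵢ[ℝ] J, T ≠ LinearIsometryEquiv.refl ℝ J ∧ T ≠ LinearIsometryEquiv.neg ℝ :=
  ⟨XX, inferInstance, inferInstance, inferInstance, basB, refl_XX, norm_bas,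
    one_uncond, JJ, inferInstance, inferInstance, inferInstance, iota, isJ, TT, TT_ne_refl,
    TT_ne_neg⟩

end Pool.Agent.Results.MP_8db9c5_an.NontrivialIsometry
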